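import Mathlib
import Pool.Agent.W546.ST.Defs
import Pool.Agent.Helper82.OS.Defs
import Pool.Agent.Helper82.OS.Defs2
import Pool.Agent.Helper82.OS.Defs3
import Pool.Agent.Helper82.OS.gsmall
import Pool.Agent.Helper82.OS.gauss_tilt
import Pool.Agent.Helper82.OS.stein1

/-!
# The near region

`NEAR`: the Gaussian integral of a general normal form with small defect is bounded by
`exp (-del/100)` times the extremal value.
-/
set_option autoImplicit false
open Matrix MeasureTheory Set Metric Filter Topology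
open scoped ENNReal Nat

namespace Pool.Agent.W395.ST
open Pool.Agent.Helper82.OS Pool.Agent.W546.ST

section alg
variable {N : ℕ} (G : GN N)

theorem onc_aux : Orthonormal ℝ (Fin.cons G.e G.q : Fin (N + 1) → E (N + 1)) := by
  constructor
  · intro i
    refine Fin.cases ?_ (fun j => ?_) i
    · simpa using G.he
    · simpa using G.hq.1 j
  · intro i j hij
    revert hij
    refine Fin.cases ?_ (fun i' => ?_) i <;> refine Fin.cases ?_ (fun j' => ?_) j
    · intro h; exact absurd rfl h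
    · intro _
      simp only [Fin.cons_zero, Fin.cons_succ]
      rw [real_inner_comm]
      exact G.hqe j'
    · intro _
      simp only [Fin.cons_zero, Fin.cons_succ]
      exact G.hqe i'
    · intro h
      simp only [Fin.cons_succ]
      exact G.hq.2 (fun e => h (by rw [e]))

theorem u2_eq (w : E (N + 1)) : G.u2 w = ‖w‖ ^ 2 - inner ℝ w G.e ^ 2 := by
  have hon := onc_aux G
  have hcard : Fintype.card (Fin (N + 1)) = Module.finrank ℝ (E (N + 1)) := by simp
  have hsp : ⊤ ≤ Submodule.span ℝ (Set.range (Fin.cons G.e G.q : Fin (N + 1) → E (N + 1))) := by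
    rw [← coe_basisOfOrthonormalOfCardEqFinrank hon hcard]
    exact (basisOfOrthonormalOfCardEqFinrank hon hcard).span_eq.ge
  have h := (OrthonormalBasis.mk hon hsp).sum_sq_norm_inner_right w
  rw [Fin.sum_univ_succ] at h
  simp only [OrthonormalBasis.coe_mk, Fin.cons_zero, Fin.cons_succ, Real.norm_eq_abs, sq_abs] at h
  unfold GN.u2
  have h1 : ∀ j, inner ℝ w (G.q j) = inner ℝ (G.q j) w := fun j => real_inner_comm _ _
  have h2 : inner ℝ w G.e = inner ℝ G.e w := real_inner_comm _ _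
  simp only [h1, h2]
  linarith

theorem u2_nonneg (w : E (N + 1)) : 0 ≤ G.u2 w := Finset.sum_nonneg fun _ _ => sq_nonneg _

theorem cj_le (j : Fin N) : 0 ≤ 1 - G.c j ^ 2 := by
  have h := G.hcs j
  have h1 : 0 ≤ ∑ a : Fin (N + 1), ‖G.Ga j (EuclideanSpace.single a 1)‖ ^ 2 :=
    Finset.sum_nonneg fun _ _ => sq_nonneg _
  linarith

theorem del_nonneg : 0 ≤ G.del := Finset.sum_nonneg fun j _ => cj_le G j

theorem eta_nonneg (w : E (N + 1)) : 0 ≤ G.eta w :=
  div_nonneg (Finset.sum_nonneg fun j _ => mul_nonneg (cj_le G j) (sq_nonneg _)) (u2_nonneg G w)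

theorem ae_u2 (hN : 1 ≤ N) : ∀ᵐ w : E (N + 1), G.u2 w ≠ 0 := by
  have j0 : Fin N := ⟨0, hN⟩
  have hne : (Submodule.span ℝ {G.q j0})ᗮ ≠ (⊤ : Submodule ℝ (E (N + 1))) := by
    intro h
    have h1 : G.q j0 ∈ (Submodule.span ℝ {G.q j0})ᗮ := by rw [h]; exact Submodule.mem_top
    have h2 := Submodule.mem_orthogonal_singleton_iff_inner_right.1 h1
    have h3 := G.hq.1 j0
    rw [real_inner_self_eq_norm_sq, h3] at h2
    norm_num at h2
  have h0 := Measure.addHaar_submodule (volume : Measure (E (N + 1))) _ hne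
  rw [ae_iff]
  refine measure_mono_null ?_ h0
  intro w hw
  have hw' : G.u2 w = 0 := by simpa using hw
  have h1 : inner ℝ w (G.q j0) ^ 2 ≤ G.u2 w :=
    Finset.single_le_sum (f := fun j => inner ℝ w (G.q j) ^ 2) (fun _ _ => sq_nonneg _) (Finset.mem_univ j0)
  have h2 : inner ℝ w (G.q j0) = 0 := by
    have : inner ℝ w (G.q j0) ^ 2 = 0 := le_antisymm (by linarith) (sq_nonneg _)
    exact pow_eq_zero_iff (two_ne_zero) |>.1 this
  rw [SetLike.mem_coe, Submodule.mem_orthogonal_singleton_iff_inner_left]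
  exact h2

/-- Parseval for the Hilbert-Schmidt norm of a skew map -/
theorem hs_eq {T : E (N + 1) →ₗ[ℝ] E (N + 1)} (hT : ∀ x y, inner ℝ (T x) y = - inner ℝ x (T y))
    (b : OrthonormalBasis (Fin (N + 1)) ℝ (E (N + 1))) :
    ∑ i, ‖T (b i)‖ ^ 2 = ∑ a : Fin (N + 1), ‖T (EuclideanSpace.single a 1)‖ ^ 2 := by
  set s := EuclideanSpace.basisFun (Fin (N + 1)) ℝ with hs
  have h1 : ∀ i, ‖T (b i)‖ ^ 2 = ∑ a, inner ℝ (b i) (T (s a)) ^ 2 := by
    intro i
    have h := s.sum_sq_norm_inner_right (T (b i))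
    rw [← h]
    refine Finset.sum_congr rfl fun a _ => ?_
    rw [Real.norm_eq_abs, sq_abs, real_inner_comm, hT]
    ring
  have h2 : ∀ a, ‖T (s a)‖ ^ 2 = ∑ i, inner ℝ (b i) (T (s a)) ^ 2 := by
    intro a
    have h := b.sum_sq_norm_inner_right (T (s a))
    rw [← h]
    refine Finset.sum_congr rfl fun i _ => ?_
    rw [Real.norm_eq_abs, sq_abs]
  calc ∑ i, ‖T (b i)‖ ^ 2 = ∑ i, ∑ a, inner ℝ (b i) (T (s a)) ^ 2 :=
        Finset.sum_congr rfl fun i _ => h1 i
    _ = ∑ a, ∑ i, inner ℝ (b i) (T (s a)) ^ 2 := Finset.sum_comm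
    _ = ∑ a, ‖T (s a)‖ ^ 2 := Finset.sum_congr rfl fun a _ => (h2 a).symm
    _ = _ := by
      refine Finset.sum_congr rfl fun a _ => ?_
      simp [hs]

/-- a skew map has operator norm at most `1/√2` of the Hilbert-Schmidt norm -/
theorem sk_le {T : E (N + 1) →ₗ[ℝ] E (N + 1)} (hT : ∀ x y, inner ℝ (T x) y = - inner ℝ x (T y))
    (b : OrthonormalBasis (Fin (N + 1)) ℝ (E (N + 1))) (i : Fin (N + 1)) :
    ‖T (b i)‖ ^ 2 ≤ (1 / 2) * ∑ k, ‖T (b k)‖ ^ 2 := by
  have h0 : inner ℝ (b i) (T (b i)) = 0 := by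
    have h := hT (b i) (b i)
    rw [real_inner_comm] at h
    linarith
  have h1 : ‖T (b i)‖ ^ 2 = ∑ k ∈ Finset.univ.erase i, inner ℝ (b k) (T (b i)) ^ 2 := by
    have h := b.sum_sq_norm_inner_right (T (b i))
    simp only [Real.norm_eq_abs, sq_abs] at h
    rw [← h, ← Finset.add_sum_erase _ _ (Finset.mem_univ i), h0]
    ring
  have h2 : ∑ k ∈ Finset.univ.erase i, inner ℝ (b k) (T (b i)) ^ 2 ≤
      ∑ k ∈ Finset.univ.erase i, ‖T (b k)‖ ^ 2 := by
    refine Finset.sum_le_sum fun k _ => ?_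
    have h3 : inner ℝ (b k) (T (b i)) = - inner ℝ (T (b k)) (b i) := by
      rw [hT]; ring
    rw [h3, neg_sq]
    have h4 := abs_real_inner_le_norm (T (b k)) (b i)
    rw [b.norm_eq_one, mul_one] at h4
    rw [← sq_abs]
    exact pow_le_pow_left₀ (abs_nonneg _) h4 2
  have h5 := Finset.add_sum_erase Finset.univ (fun k => ‖T (b k)‖ ^ 2) (Finset.mem_univ i)
  linarith

/-- eigenbasis of `∑ Gaⱼᵀ Gaⱼ` -/
theorem eig : ∃ (b : OrthonormalBasis (Fin (N + 1)) ℝ (E (N + 1))) (l : Fin (N + 1) → ℝ),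
    (∀ i, 0 ≤ l i) ∧ (∀ i, l i ≤ G.del) ∧ ∑ i, l i = 2 * G.del ∧
    ∀ w, G.Bq w = ∑ i, l i * inner ℝ w (b i) ^ 2 := by
  set S : E (N + 1) →ₗ[ℝ] E (N + 1) := -∑ j, (G.Ga j) ∘ₗ (G.Ga j) with hS
  have hSi : ∀ x y, inner ℝ (S x) y = ∑ j, inner ℝ (G.Ga j x) (G.Ga j y) := by
    intro x y
    simp only [hS, LinearMap.neg_apply, LinearMap.sum_apply, LinearMap.comp_apply, inner_neg_left, sum_inner]
    rw [← Finset.sum_neg_distrib]
    refine Finset.sum_congr rfl fun j _ => ?_
    rw [G.hsk j]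
    ring
  have hsym : S.IsSymmetric := by
    intro x y
    rw [hSi, real_inner_comm, hSi]
    refine Finset.sum_congr rfl fun j _ => ?_
    exact real_inner_comm _ _
  have hfr : Module.finrank ℝ (E (N + 1)) = N + 1 := by simp
  set b := hsym.eigenvectorBasis hfr with hb
  set l := hsym.eigenvalues hfr with hl
  have hSb : ∀ i, S (b i) = l i • b i := fun i => by
    have := hsym.apply_eigenvectorBasis hfr i
    rw [hb, hl]
    exact_mod_cast this
  have hlB : ∀ i, l i = G.Bq (b i) := by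
    intro i
    have h1 := hSi (b i) (b i)
    rw [hSb, real_inner_smul_left, real_inner_self_eq_norm_sq, b.norm_eq_one] at h1
    unfold GN.Bq
    rw [one_pow, mul_one] at h1
    rw [h1]
    refine Finset.sum_congr rfl fun j _ => ?_
    exact real_inner_self_eq_norm_sq _
  refine ⟨b, l, ?_, ?_, ?_, ?_⟩
  · intro i
    rw [hlB]
    exact Finset.sum_nonneg fun _ _ => sq_nonneg _
  · intro i
    rw [hlB]
    unfold GN.Bq GN.del
    refine Finset.sum_le_sum fun j _ => ?_
    have h1 := sk_le (G.hsk j) b i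
    rw [hs_eq (G.hsk j) b] at h1
    have h2 := G.hcs j
    linarith
  · simp only [hlB]
    unfold GN.Bq GN.del
    rw [Finset.sum_comm, Finset.mul_sum]
    refine Finset.sum_congr rfl fun j _ => ?_
    rw [hs_eq (G.hsk j) b]
    have h2 := G.hcs j
    linarith
  · intro w
    have h1 : G.Bq w = inner ℝ (S w) w := by
      rw [hSi]
      unfold GN.Bq
      refine Finset.sum_congr rfl fun j _ => ?_
      exact (real_inner_self_eq_norm_sq _).symm
    rw [h1, ← b.sum_inner_mul_inner (S w) w]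
    refine Finset.sum_congr rfl fun i _ => ?_
    rw [hsym w (b i), hSb, real_inner_smul_right, real_inner_comm w (b i)]
    ring

theorem coefs (hN : 6 ≤ N) (hd : G.del ≤ 3 / 20) :
    ∃ (b : OrthonormalBasis (Fin (N + 1)) ℝ (E (N + 1))) (a : Fin (N + 1) → ℝ),
      (∀ i, 0 ≤ a i) ∧ (∀ i, 2 * a i < 1) ∧
      (∀ w : E (N + 1), ∑ i, a i * inner ℝ w (b i) ^ 2 = 2 * (0.163 * G.Bq w)) ∧
      (∑ i, a i / (1 - 2 * a i)) * (1 + 1 / (N : ℝ)) ≤ 0.8432 * G.del := by
  have hNR : (6 : ℝ) ≤ N := by exact_mod_cast hN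
  have hd0 := del_nonneg G
  obtain ⟨b, l, hl0, hl1, hls, hlB⟩ := eig G
  refine ⟨b, fun i => 0.326 * l i, ?_, ?_, ?_, ?_⟩
  · intro i
    have := hl0 i
    positivity
  · intro i
    have := hl1 i
    simp only
    linarith
  · intro w
    rw [hlB w, Finset.mul_sum, Finset.mul_sum]
    refine Finset.sum_congr rfl fun i _ => ?_
    ring
  · have h1 : ∑ i, 0.326 * l i / (1 - 2 * (0.326 * l i)) ≤ 0.7227 * G.del := by
      have : 0.7227 * G.del = ∑ i, 0.36135 * l i := by
        rw [← Finset.mul_sum, hls]; ring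
      rw [this]
      refine Finset.sum_le_sum fun i _ => ?_
      have h0 := hl0 i
      have h1 := hl1 i
      have h2 : 0 < 1 - 2 * (0.326 * l i) := by linarith
      rw [div_le_iff₀ h2]
      nlinarith
    have h2 : (1 : ℝ) + 1 / N ≤ 7 / 6 := by
      have : 1 / (N : ℝ) ≤ 1 / 6 := one_div_le_one_div_of_le (by norm_num) hNR
      linarith
    calc _ ≤ 0.7227 * G.del * (7 / 6) := by
          apply mul_le_mul h1 h2 (by positivity) (by positivity)
      _ ≤ 0.8432 * G.del := by nlinarith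

theorem al_ge (hN : 6 ≤ N) (hd : G.del ≤ 3 / 20) (w : E (N + 1)) : 0.97 ≤ G.al w := by
  have hNR : (6 : ℝ) ≤ N := by exact_mod_cast hN
  have he := eta_nonneg G w
  have hd0 := del_nonneg G
  unfold GN.al
  have h1 : (G.del - G.eta w) / ((N : ℝ) - 1) ≤ 0.03 := by
    rw [div_le_iff₀ (by linarith)]
    nlinarith
  linarith

theorem Bq_nonneg (w : E (N + 1)) : 0 ≤ G.Bq w := Finset.sum_nonneg fun _ _ => sq_nonneg _

/-- bound of `R * be` -/
theorem Rbe (hN : 6 ≤ N) (hd : G.del ≤ 3 / 20) (w : E (N + 1)) (R : ℝ) (hR0 : 0 ≤ R)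
    (hR : R ≤ 0.158 * ((N : ℝ) - 1)) :
    R * G.be w ≤ 0.163 * G.Bq w + 0.168 * G.k2 w ^ 2 := by
  have hNR : (6 : ℝ) ≤ N := by exact_mod_cast hN
  have ha := al_ge G hN hd w
  have hB := Bq_nonneg G w
  have hk : 0 ≤ G.k2 w ^ 2 := sq_nonneg _
  have ha0 : 0 < G.al w := by linarith
  have hn : (0 : ℝ) < (N : ℝ) - 1 := by linarith
  have h1 : G.k2 w ^ 2 / G.al w ≤ G.k2 w ^ 2 / 0.97 := by
    apply div_le_div_of_nonneg_left hk (by norm_num) ha
  have h2 : R / ((N : ℝ) - 1) ≤ 0.158 := by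
    rw [div_le_iff₀ hn]; exact hR
  have h3 : R * G.be w = R / ((N : ℝ) - 1) * ((G.Bq w + G.k2 w ^ 2 / G.al w) / G.al w) := by
    unfold GN.be
    field_simp
  have h4 : (G.Bq w + G.k2 w ^ 2 / G.al w) / G.al w ≤ (G.Bq w + G.k2 w ^ 2 / 0.97) / 0.97 := by
    apply div_le_div₀ _ _ (by norm_num) ha
    · positivity
    · linarith
  rw [h3]
  calc R / ((N : ℝ) - 1) * ((G.Bq w + G.k2 w ^ 2 / G.al w) / G.al w)
      ≤ 0.158 * ((G.Bq w + G.k2 w ^ 2 / 0.97) / 0.97) := by
        apply mul_le_mul h2 h4 (by positivity) (by norm_num)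
    _ ≤ 0.163 * G.Bq w + 0.168 * G.k2 w ^ 2 := by
        have : 0.158 * ((G.Bq w + G.k2 w ^ 2 / 0.97) / 0.97) =
          (0.158 / 0.97) * G.Bq w + (0.158 / 0.97 / 0.97) * G.k2 w ^ 2 := by ring
        rw [this]
        have e1 : (0.158 / 0.97 : ℝ) ≤ 0.163 := by norm_num
        have e2 : (0.158 / 0.97 / 0.97 : ℝ) ≤ 0.168 := by norm_num
        exact add_le_add (mul_le_mul_of_nonneg_right e1 hB) (mul_le_mul_of_nonneg_right e2 hk)

end alg

section ana

/-- the `t`-integral -/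
theorem innerI (h1 : St_SYM) {m : ℕ} (hm : 3 ≤ m) (G : GN (2 * m)) (w : E (2 * m + 1)) (hu : G.u2 w ≠ 0)
    (hal : 0 < G.al w) (R : ℝ)
    (hst : ∀ (u b : ℝ), 0 ≤ u → 0 ≤ b →
      ∫⁻ t : ℝ, ENNReal.ofReal (Real.sqrt (t ^ 2 + u + b) * Real.sqrt ((t ^ 2 + b) ^ (2 * m - 1)) * gt t)
        ≤ ENNReal.ofReal (Real.exp (R * b)) * Psi (2 * m) u) :
    ∫⁻ t : ℝ, ENNReal.ofReal (G.FF t w * gt t * gw w) ≤
      ENNReal.ofReal (Real.exp (-G.del / 2)) * (ENNReal.ofReal (Real.exp (R * G.be w)) *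
        Psi (2 * m) (G.u2 w)) * ENNReal.ofReal (gw w) := by
  have hF : ∀ t, 0 ≤ G.FF t w := fun t => Real.sqrt_nonneg _
  have h1' : ∀ t : ℝ, ENNReal.ofReal (G.FF t w * gt t * gw w) =
      ENNReal.ofReal (G.FF t w * gt t) * ENNReal.ofReal (gw w) := fun t =>
    ENNReal.ofReal_mul (mul_nonneg (hF t) (gt_pos_aux_gsmallx t).le)
  simp_rw [h1']
  rw [lintegral_mul_const' _ _ ENNReal.ofReal_ne_top]
  gcongr
  have hu0 : 0 ≤ G.u2 w := u2_nonneg G w
  have hbe : 0 ≤ G.be w := (h1 (2 * m) (by omega) G 1 w hu one_ne_zero hal).1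
  set h : ℝ → ℝ≥0∞ := fun t => ENNReal.ofReal (G.FF t w * gt t) with hh
  set S : ℝ → ℝ≥0∞ := fun t => ENNReal.ofReal (Real.sqrt (t ^ 2 + G.u2 w + G.be w) *
    Real.sqrt ((t ^ 2 + G.be w) ^ (2 * m - 1)) * gt t) with hS
  have hneg : ∫⁻ t, h (-t) = ∫⁻ t, h t :=
    lintegral_neg_eq_self (μ := (volume : Measure ℝ)) h
  have h2 : 2 * ∫⁻ t, h t ≤ 2 * (ENNReal.ofReal (Real.exp (-G.del / 2)) * ∫⁻ t, S t) := by
    calc 2 * ∫⁻ t, h t = (∫⁻ t, h t) + (∫⁻ t, h (-t)) := by rw [hneg, two_mul]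
      _ ≤ ∫⁻ t, (h t + h (-t)) := le_lintegral_add _ _
      _ ≤ ∫⁻ t, (2 * ENNReal.ofReal (Real.exp (-G.del / 2))) * S t := by
          refine lintegral_mono_ae ?_
          have hne : ∀ᵐ t : ℝ, t ≠ 0 := by
            rw [ae_iff]; simp
          filter_upwards [hne] with t ht
          have hs := (h1 (2 * m) (by omega) G t w hu ht hal).2
          simp only [hh, hS, gt_neg_aux_gsmallx]
          rw [← ENNReal.ofReal_add (mul_nonneg (hF _) (gt_pos_aux_gsmallx t).le)
            (mul_nonneg (hF _) (gt_pos_aux_gsmallx t).le)]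
          have e2 : (2 : ℝ≥0∞) * ENNReal.ofReal (Real.exp (-G.del / 2)) =
              ENNReal.ofReal (2 * Real.exp (-G.del / 2)) := by
            rw [ENNReal.ofReal_mul (by norm_num)]; simp
          rw [e2, ← ENNReal.ofReal_mul (by positivity)]
          apply ENNReal.ofReal_le_ofReal
          have hg := (gt_pos_aux_gsmallx t).le
          nlinarith [mul_le_mul_of_nonneg_right hs hg]
      _ = 2 * (ENNReal.ofReal (Real.exp (-G.del / 2)) * ∫⁻ t, S t) := by
          rw [lintegral_const_mul' _ _ (ENNReal.mul_ne_top (by simp) ENNReal.ofReal_ne_top), mul_assoc]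
  have h3 : ∫⁻ t, h t ≤ ENNReal.ofReal (Real.exp (-G.del / 2)) * ∫⁻ t, S t :=
    (ENNReal.mul_le_mul_iff_right (by simp) (by simp)).1 h2
  refine h3.trans ?_
  gcongr
  exact hst _ _ hu0 hbe

theorem NEAR (h1 : St_SYM) (h2 : St_ST6) (h3 : St_GK2) : St_NEAR := by
  intro m hm G hd
  have hN6 : 6 ≤ 2 * m := by omega
  have hNR : (6 : ℝ) ≤ ((2 * m : ℕ) : ℝ) := by exact_mod_cast hN6
  have hN0 : (0 : ℝ) < ((2 * m : ℕ) : ℝ) := by linarith
  have hd0 : 0 ≤ G.del := del_nonneg G
  -- the constant `R`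
  obtain ⟨R, hR0, hR, hst⟩ : ∃ R : ℝ, 0 ≤ R ∧ R ≤ 0.158 * (((2 * m : ℕ) : ℝ) - 1) ∧
      ∀ (u b : ℝ), 0 ≤ u → 0 ≤ b →
      ∫⁻ t : ℝ, ENNReal.ofReal (Real.sqrt (t ^ 2 + u + b) * Real.sqrt ((t ^ 2 + b) ^ (2 * m - 1)) * gt t)
        ≤ ENNReal.ofReal (Real.exp (R * b)) * Psi (2 * m) u := by
    rcases Nat.lt_or_ge 3 m with h | h
    · refine ⟨1, by norm_num, ?_, ?_⟩
      · have : (8 : ℝ) ≤ ((2 * m : ℕ) : ℝ) := by
          have : 8 ≤ 2 * m := by omega
          exact_mod_cast this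
        linarith
      · intro u b hu hb
        rw [one_mul]
        exact stein1 hm u b hu hb
    · have : m = 3 := le_antisymm h hm
      subst this
      refine ⟨79 / 100, by norm_num, ?_, ?_⟩
      · norm_num
      · intro u b hu hb
        exact h2 u b hu hb
  obtain ⟨b, a, ha0, ha1, hsum, hcoef⟩ := coefs G hN6 hd
  set β1 : E (2 * m + 1) → ℝ := fun w => 0.163 * G.Bq w with hβ1
  set β2 : E (2 * m + 1) → ℝ := fun w => 0.168 * G.k2 w ^ 2 with hβ2
  -- measurability
  have mu2 : Measurable G.u2 := by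
    unfold GN.u2
    fun_prop
  have mGa : ∀ j, Measurable (fun w : E (2 * m + 1) => G.Ga j w) := fun j =>
    (LinearMap.continuous_of_finiteDimensional (G.Ga j)).measurable
  have mk2 : Measurable G.k2 := by
    unfold GN.k2
    refine Measurable.div ?_ mu2
    unfold GN.lv
    refine Measurable.mul (by fun_prop) ?_
    refine Finset.measurable_sum _ fun j _ => ?_
    refine Measurable.mul (by fun_prop) ?_
    exact (mGa j).inner measurable_const
  have mBq : Measurable G.Bq := by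
    unfold GN.Bq
    refine Finset.measurable_sum _ fun j _ => ?_
    exact (mGa j).norm.pow_const 2
  have mgw : Measurable (gw : E (2 * m + 1) → ℝ) := by unfold gw; fun_prop
  have mβ1 : Measurable β1 := by
    simp only [hβ1]
    fun_prop
  have mβ2 : Measurable β2 := by
    simp only [hβ2]
    fun_prop
  have eI : ∫⁻ w : E (2 * m + 1), Psi (2 * m) (‖w‖ ^ 2 - inner ℝ w G.e ^ 2) * ENNReal.ofReal (gw w) =
      ∫⁻ w : E (2 * m + 1), Psi (2 * m) (G.u2 w) * ENNReal.ofReal (gw w) := by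
    refine lintegral_congr fun w => ?_
    rw [u2_eq]
  rw [eI]
  set I : ℝ≥0∞ := ∫⁻ w : E (2 * m + 1), Psi (2 * m) (G.u2 w) * ENNReal.ofReal (gw w) with hI
  have I1 : ∫⁻ w : E (2 * m + 1), Psi (2 * m) (G.u2 w) *
      ENNReal.ofReal (Real.exp (2 * β1 w) * gw w) ≤ ENNReal.ofReal (Real.exp (0.8432 * G.del)) * I := by
    refine dom_aux_gsmallx G.u2 (fun w => Real.exp (2 * β1 w)) mu2 (by fun_prop) (fun w => (Real.exp_pos _).le) _ ?_
    intro t
    have h := gauss_tilt (N := 2 * m) (by omega) b a ha0 ha1 G.e G.he t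
    have e1 : ∀ w : E (2 * m + 1), ‖w‖ ^ 2 - inner ℝ w G.e ^ 2 = G.u2 w := fun w => (u2_eq G w).symm
    simp only [e1, hsum] at h
    refine h.trans ?_
    gcongr
  have I2 : ∫⁻ w : E (2 * m + 1), Psi (2 * m) (G.u2 w) *
      ENNReal.ofReal (Real.exp (2 * β2 w) * gw w) ≤ ENNReal.ofReal (Real.exp (0.0672 * G.del)) * I := by
    refine dom_aux_gsmallx G.u2 (fun w => Real.exp (2 * β2 w)) mu2 (by fun_prop) (fun w => (Real.exp_pos _).le) _ ?_
    intro t
    have h := h3 (2 * m) (by omega) G 0.336 (by norm_num) (by linarith) t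
    have e2 : ∀ w : E (2 * m + 1), 2 * β2 w = 0.336 * G.k2 w ^ 2 := fun w => by
      simp only [hβ2]; ring
    simp only [e2]
    refine h.trans ?_
    gcongr
    have h1 : 6 / 5 * 0.336 * G.del / ((2 * m : ℕ) : ℝ) ≤ 0.0672 * G.del := by
      rw [div_le_iff₀ hN0]
      nlinarith [mul_nonneg hd0 (sub_nonneg.2 hNR)]
    have h2 := Real.add_one_le_exp (0.0672 * G.del)
    linarith
  set ra : ℝ := Real.exp (-(0.194 * G.del)) with hra
  set rb : ℝ := Real.exp (0.194 * G.del) with hrb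
  have hra0 : 0 < ra := Real.exp_pos _
  have hrb0 : 0 < rb := Real.exp_pos _
  have hrab : ra * rb = 1 := by
    rw [hra, hrb, ← Real.exp_add]; simp
  set L1 : ℝ := 1 / 2 * ra ^ 2 with hL1
  set L2 : ℝ := 1 / 2 * rb ^ 2 with hL2
  have hL10 : 0 < L1 := by positivity
  have hL20 : 0 < L2 := by positivity
  have step : ∀ᵐ w : E (2 * m + 1), (∫⁻ t : ℝ, ENNReal.ofReal (G.FF t w * gt t * gw w)) ≤
      ENNReal.ofReal (Real.exp (-G.del / 2)) *
        (Psi (2 * m) (G.u2 w) * ENNReal.ofReal (L1 * (Real.exp (2 * β1 w) * gw w)) +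
         Psi (2 * m) (G.u2 w) * ENNReal.ofReal (L2 * (Real.exp (2 * β2 w) * gw w))) := by
    filter_upwards [ae_u2 G (by omega)] with w hu
    have hal : 0 < G.al w := by
      have := al_ge G hN6 hd w
      linarith
    refine (innerI h1 hm G w hu hal R hst).trans ?_
    have hb12 : R * G.be w ≤ β1 w + β2 w := Rbe G hN6 hd w R hR0 hR
    have hexp : Real.exp (R * G.be w) ≤ L1 * Real.exp (2 * β1 w) + L2 * Real.exp (2 * β2 w) := by
      have h1 : Real.exp (R * G.be w) ≤ Real.exp (β1 w) * Real.exp (β2 w) := by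
        rw [← Real.exp_add]; exact Real.exp_le_exp.2 hb12
      have h2 : Real.exp (2 * β1 w) = Real.exp (β1 w) ^ 2 := by
        rw [← Real.exp_nat_mul]; norm_num
      have h3 : Real.exp (2 * β2 w) = Real.exp (β2 w) ^ 2 := by
        rw [← Real.exp_nat_mul]; norm_num
      rw [h2, h3]
      have h4 : 0 ≤ (ra * Real.exp (β1 w) - rb * Real.exp (β2 w)) ^ 2 := sq_nonneg _
      have h5 : (ra * Real.exp (β1 w) - rb * Real.exp (β2 w)) ^ 2 =
          2 * (L1 * Real.exp (β1 w) ^ 2 + L2 * Real.exp (β2 w) ^ 2) -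
          2 * (ra * rb) * (Real.exp (β1 w) * Real.exp (β2 w)) := by
        rw [hL1, hL2]; ring
      rw [h5, hrab] at h4
      linarith
    have hg := (gw_pos_aux_gsmallx w).le
    rw [← mul_add, ← ENNReal.ofReal_add (by positivity) (by positivity), mul_assoc]
    gcongr ENNReal.ofReal (Real.exp (-G.del / 2)) * ?_
    rw [mul_comm (ENNReal.ofReal (Real.exp (R * G.be w))) _, mul_assoc]
    gcongr Psi (2 * m) (G.u2 w) * ?_
    rw [← ENNReal.ofReal_mul (Real.exp_pos _).le]
    apply ENNReal.ofReal_le_ofReal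
    nlinarith [mul_le_mul_of_nonneg_right hexp hg]
  unfold GGN
  refine (lintegral_mono_ae step).trans ?_
  rw [lintegral_const_mul' _ _ ENNReal.ofReal_ne_top]
  have mPsi : Measurable (fun w : E (2 * m + 1) => Psi (2 * m) (G.u2 w)) := by
    have hgt : Measurable gt := by unfold gt; fun_prop
    have h1 : Measurable (fun u : ℝ => Psi (2 * m) u) := by
      unfold Psi
      refine Measurable.lintegral_prod_right' (f := fun p : ℝ × ℝ =>
        ENNReal.ofReal (Real.sqrt (p.2 ^ 2 + p.1) * |p.2| ^ (2 * m - 1) * gt p.2)) ?_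
      fun_prop
    exact h1.comp mu2
  rw [lintegral_add_left]
  · have half : ∀ (L : ℝ), 0 < L → ∀ β : E (2 * m + 1) → ℝ,
        ∫⁻ w : E (2 * m + 1), Psi (2 * m) (G.u2 w) * ENNReal.ofReal (L * (Real.exp (2 * β w) * gw w)) =
        ENNReal.ofReal L * ∫⁻ w : E (2 * m + 1), Psi (2 * m) (G.u2 w) *
          ENNReal.ofReal (Real.exp (2 * β w) * gw w) := by
      intro L hL β
      rw [← lintegral_const_mul' _ _ ENNReal.ofReal_ne_top]
      refine lintegral_congr fun w => ?_
      rw [ENNReal.ofReal_mul hL.le]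
      ring
    rw [half L1 hL10 β1, half L2 hL20 β2]
    calc ENNReal.ofReal (Real.exp (-G.del / 2)) * (ENNReal.ofReal L1 * (∫⁻ w : E (2 * m + 1),
            Psi (2 * m) (G.u2 w) * ENNReal.ofReal (Real.exp (2 * β1 w) * gw w)) +
          ENNReal.ofReal L2 * (∫⁻ w : E (2 * m + 1),
            Psi (2 * m) (G.u2 w) * ENNReal.ofReal (Real.exp (2 * β2 w) * gw w)))
        ≤ ENNReal.ofReal (Real.exp (-G.del / 2)) *
          (ENNReal.ofReal L1 * (ENNReal.ofReal (Real.exp (0.8432 * G.del)) * I) +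
           ENNReal.ofReal L2 * (ENNReal.ofReal (Real.exp (0.0672 * G.del)) * I)) := by
          gcongr
      _ = (ENNReal.ofReal (Real.exp (-G.del / 2)) * (ENNReal.ofReal L1 * ENNReal.ofReal (Real.exp (0.8432 * G.del)) +
            ENNReal.ofReal L2 * ENNReal.ofReal (Real.exp (0.0672 * G.del)))) * I := by ring
      _ ≤ ENNReal.ofReal (Real.exp (-(G.del / 100))) * I := by
          gcongr
          rw [← ENNReal.ofReal_mul hL10.le, ← ENNReal.ofReal_mul hL20.le,
            ← ENNReal.ofReal_add (by positivity) (by positivity), ← ENNReal.ofReal_mul (by positivity)]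
          apply ENNReal.ofReal_le_ofReal
          have e1 : Real.exp (-G.del / 2) * (L1 * Real.exp (0.8432 * G.del)) ≤
              1 / 2 * Real.exp (-(G.del / 100)) := by
            have : Real.exp (-G.del / 2) * (L1 * Real.exp (0.8432 * G.del)) =
                1 / 2 * Real.exp (-G.del / 2 + (-(0.194 * G.del) + (-(0.194 * G.del) + 0.8432 * G.del))) := by
              rw [Real.exp_add, Real.exp_add, Real.exp_add, hL1, hra]; ring
            rw [this]
            apply mul_le_mul_of_nonneg_left _ (by norm_num)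
            apply Real.exp_le_exp.2
            linarith
          have e2 : Real.exp (-G.del / 2) * (L2 * Real.exp (0.0672 * G.del)) ≤
              1 / 2 * Real.exp (-(G.del / 100)) := by
            have : Real.exp (-G.del / 2) * (L2 * Real.exp (0.0672 * G.del)) =
                1 / 2 * Real.exp (-G.del / 2 + (0.194 * G.del + (0.194 * G.del + 0.0672 * G.del))) := by
              rw [Real.exp_add, Real.exp_add, Real.exp_add, hL2, hrb]; ring
            rw [this]
            apply mul_le_mul_of_nonneg_left _ (by norm_num)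
            apply Real.exp_le_exp.2
            linarith
          rw [mul_add]
          linarith
  · exact mPsi.mul (by fun_prop)

end ana

end Pool.Agent.W395.ST
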